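import Pool.Agent.H28.BF.Stm

set_option autoImplicit false

/-! # Inverse Weyl theorem (module WEYL of project BF) -/

namespace Pool.Agent.H88.BF

open Finset Filter Topology Polynomial
open Pool.Agent.H28.BF

lemma norm_ex (x : ℝ) : ‖ex x‖ = 1 := by
  unfold ex
  have : (2 * Real.pi * x * Complex.I : ℂ) = ((2 * Real.pi * x : ℝ) : ℂ) * Complex.I := by
    push_cast; ring
  rw [this, Complex.norm_exp_ofReal_mul_I]

lemma ex_add (x y : ℝ) : ex (x + y) = ex x * ex y := by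
  unfold ex
  rw [← Complex.exp_add]
  congr 1
  push_cast
  ring

lemma conj_ex (x : ℝ) : (starRingEnd ℂ) (ex x) = ex (-x) := by
  unfold ex
  rw [← Complex.exp_conj]
  congr 1
  rw [map_mul, map_mul, map_mul, Complex.conj_I, Complex.conj_ofReal, Complex.conj_ofReal, map_ofNat]
  push_cast
  ring

lemma ex_int (k : ℤ) : ex k = 1 := by
  unfold ex
  rw [Complex.exp_eq_one_iff]
  exact ⟨k, by push_cast; ring⟩

lemma nd_nonneg (x : ℝ) : 0 ≤ nd x := abs_nonneg _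

lemma nd_le (x : ℝ) : nd x ≤ 1 / 2 := abs_sub_round x

/-- `4 ‖x‖ ≤ |e(x) - 1|` -/
lemma four_nd (x : ℝ) : 4 * nd x ≤ ‖ex x - 1‖ := by
  have h1 : ex x = ex (x - round x) := by
    have := ex_add (x - round x) (round x)
    rw [ex_int, mul_one] at this
    rw [← this]
    congr 1
    ring
  rw [h1]
  unfold nd
  set y : ℝ := x - round x with hy
  have hy2 : |y| ≤ 1 / 2 := abs_sub_round x
  have h2 : ex y = Complex.exp (Complex.I * ((2 * Real.pi * y : ℝ) : ℂ)) := by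
    unfold ex
    congr 1
    push_cast
    ring
  rw [h2, Complex.norm_exp_I_mul_ofReal_sub_one]
  have h3 : 2 * Real.pi * y / 2 = Real.pi * y := by ring
  rw [h3, norm_mul, Real.norm_eq_abs, Real.norm_eq_abs, abs_two]
  have h4 : 2 / Real.pi * |Real.pi * y| ≤ |Real.sin (Real.pi * y)| := by
    apply Real.mul_abs_le_abs_sin
    rw [abs_mul, abs_of_pos Real.pi_pos]
    have := Real.pi_pos
    nlinarith
  rw [abs_mul, abs_of_pos Real.pi_pos] at h4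
  have h5 : 2 / Real.pi * (Real.pi * |y|) = 2 * |y| := by
    field_simp
  rw [h5] at h4
  linarith

lemma geom (b : ℝ) (N : ℕ) : ‖∑ n ∈ Ioc 0 N, ex (b * n)‖ * (4 * nd b) ≤ 2 := by
  have h1 : (∑ n ∈ Ioc 0 N, ex (b * n)) * (ex b - 1) = ex (b * (N + 1)) - ex b := by
    induction N with
    | zero => simp
    | succ N ih =>
      rw [Finset.sum_Ioc_succ_top (Nat.zero_le N), add_mul, ih]
      have e1 : ex (b * ((N : ℝ) + 1)) * ex b = ex (b * ((N : ℝ) + 1 + 1)) := by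
        rw [← ex_add]
        congr 1
        ring
      push_cast
      rw [mul_sub, e1]
      ring
  have h2 : ‖∑ n ∈ Ioc 0 N, ex (b * n)‖ * ‖ex b - 1‖ ≤ 2 := by
    rw [← norm_mul, h1]
    refine (norm_sub_le _ _).trans ?_
    rw [norm_ex, norm_ex]
    norm_num
  exact (mul_le_mul_of_nonneg_left (four_nd b) (norm_nonneg _)).trans h2

lemma tri (N : ℕ) (g : ℕ → ℕ → ℂ) :
    ∑ h ∈ Ioc 0 (N - 1), ∑ n ∈ Ioc 0 (N - h), g (n + h) n =
      ∑ m ∈ Ioc 0 N, ∑ n ∈ Ioc 0 (m - 1), g m n := by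
  rw [Finset.sum_sigma', Finset.sum_sigma']
  refine Finset.sum_nbij' (fun p => ⟨p.2 + p.1, p.2⟩) (fun p => ⟨p.1 - p.2, p.2⟩) ?_ ?_ ?_ ?_ ?_
  · rintro ⟨h, n⟩ hp
    simp only [mem_sigma, mem_Ioc] at hp ⊢
    omega
  · rintro ⟨m, n⟩ hp
    simp only [mem_sigma, mem_Ioc] at hp ⊢
    omega
  · rintro ⟨h, n⟩ hp
    simp only [mem_sigma, mem_Ioc] at hp ⊢
    congr 1
    omega
  · rintro ⟨m, n⟩ hp
    simp only [mem_sigma, mem_Ioc] at hp ⊢
    congr 1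
    omega
  · rintro ⟨h, n⟩ hp
    rfl

lemma dbl (N : ℕ) (f : ℕ → ℕ → ℂ) : ∑ m ∈ Ioc 0 N, ∑ n ∈ Ioc 0 N, f m n =
    ∑ n ∈ Ioc 0 N, f n n + ∑ m ∈ Ioc 0 N, ∑ n ∈ Ioc 0 (m - 1), f m n +
      ∑ m ∈ Ioc 0 N, ∑ n ∈ Ioc 0 (m - 1), f n m := by
  induction N with
  | zero => simp
  | succ N ih =>
    simp only [Finset.sum_Ioc_succ_top (Nat.zero_le N), Finset.sum_add_distrib, Nat.add_sub_cancel]
    rw [ih]
    ring

/-- differencing -/
lemma differencing (N : ℕ) (a : ℕ → ℂ) (ha : ∀ n, ‖a n‖ = 1) :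
    ‖∑ n ∈ Ioc 0 N, a n‖ ^ 2 ≤ N +
      2 * ∑ h ∈ Ioc 0 (N - 1), ‖∑ n ∈ Ioc 0 (N - h), a (n + h) * (starRingEnd ℂ) (a n)‖ := by
  have h1 : ((‖∑ n ∈ Ioc 0 N, a n‖ ^ 2 : ℝ) : ℂ) =
      ∑ m ∈ Ioc 0 N, ∑ n ∈ Ioc 0 N, a m * (starRingEnd ℂ) (a n) := by
    have : ((‖∑ n ∈ Ioc 0 N, a n‖ ^ 2 : ℝ) : ℂ) =
        (∑ n ∈ Ioc 0 N, a n) * (starRingEnd ℂ) (∑ n ∈ Ioc 0 N, a n) := by
      rw [Complex.mul_conj, Complex.normSq_eq_norm_sq]
    rw [this, map_sum, Finset.sum_mul_sum]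
  rw [dbl, ← tri N (fun m n => a m * (starRingEnd ℂ) (a n)),
    ← tri N (fun m n => a n * (starRingEnd ℂ) (a m))] at h1
  have h2 : ‖∑ n ∈ Ioc 0 N, a n‖ ^ 2 = ‖((‖∑ n ∈ Ioc 0 N, a n‖ ^ 2 : ℝ) : ℂ)‖ := by
    rw [Complex.norm_real, Real.norm_eq_abs, abs_of_nonneg (by positivity)]
  rw [h2, h1]
  have h3 : ‖∑ n ∈ Ioc 0 N, a n * (starRingEnd ℂ) (a n)‖ ≤ N := by
    refine (norm_sum_le _ _).trans ?_
    have : ∀ n ∈ Ioc 0 N, ‖a n * (starRingEnd ℂ) (a n)‖ = 1 := fun n _ => by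
      rw [norm_mul, RCLike.norm_conj, ha, mul_one]
    rw [Finset.sum_congr rfl this]
    simp
  have h4 : ∀ h, ‖∑ n ∈ Ioc 0 (N - h), a n * (starRingEnd ℂ) (a (n + h))‖ =
      ‖∑ n ∈ Ioc 0 (N - h), a (n + h) * (starRingEnd ℂ) (a n)‖ := by
    intro h
    rw [← RCLike.norm_conj (∑ n ∈ Ioc 0 (N - h), a (n + h) * (starRingEnd ℂ) (a n)), map_sum]
    congr 1
    refine Finset.sum_congr rfl fun n _ => ?_
    rw [map_mul, RingHomCompTriple.comp_apply, RingHom.id_apply, mul_comm]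
  have h5 := norm_sum_le (Ioc 0 (N - 1))
    (fun h => ∑ n ∈ Ioc 0 (N - h), a (n + h) * (starRingEnd ℂ) (a n))
  have h6 := norm_sum_le (Ioc 0 (N - 1))
    (fun h => ∑ n ∈ Ioc 0 (N - h), a n * (starRingEnd ℂ) (a (n + h)))
  simp only [h4] at h6
  refine (norm_add_le _ _).trans ?_
  refine (add_le_add (norm_add_le _ _) le_rfl).trans ?_
  linarith

/-- the differenced polynomial -/
lemma diff_poly {D : ℕ} (P : ℝ[X]) (hP : P.natDegree ≤ D + 1) (h : ℝ) :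
    (taylor h P - P).natDegree ≤ D ∧ (taylor h P - P).coeff D = (D + 1) * h * P.coeff (D + 1) := by
  have h0 : ∀ k, (taylor h P).coeff k = (hasseDeriv k P).eval h := fun k => taylor_coeff h P k
  constructor
  · rw [natDegree_le_iff_coeff_eq_zero]
    intro m hm
    rw [coeff_sub]
    rcases Nat.lt_or_ge (D + 1) m with h1 | h1
    · have e1 : (taylor h P).coeff m = 0 :=
        coeff_eq_zero_of_natDegree_lt (by rw [natDegree_taylor]; omega)
      have e2 : P.coeff m = 0 := coeff_eq_zero_of_natDegree_lt (by omega)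
      rw [e1, e2, sub_zero]
    · have hm' : m = D + 1 := by omega
      subst hm'
      rw [h0, eval_eq_sum_range' (n := 1) (lt_of_le_of_lt (natDegree_hasseDeriv_le P (D + 1)) (by omega))]
      simp [hasseDeriv_coeff]
  · rw [coeff_sub, h0,
      eval_eq_sum_range' (n := 2) (lt_of_le_of_lt (natDegree_hasseDeriv_le P D) (by omega))]
    simp only [Finset.sum_range_succ, Finset.sum_range_zero, hasseDeriv_coeff, zero_add, pow_zero,
      mul_one, pow_one, Nat.choose_self, Nat.cast_one, one_mul]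
    have e1 : (1 + D).choose D = D + 1 := by
      rw [add_comm, Nat.choose_succ_self_right]
    rw [e1, add_comm 1 D]
    push_cast
    ring

lemma base_case (η : ℝ) (hη : 0 < η) : ∃ C : ℕ, 1 ≤ C ∧
    ∀ (N : ℕ) (P : ℝ[X]), 1 ≤ N → P.natDegree ≤ 1 → η * N ≤ ‖∑ n ∈ Ioc 0 N, ex (P.eval (n : ℝ))‖ →
    ∃ q : ℕ, 1 ≤ q ∧ q ≤ C ∧ nd (q * P.coeff 1) ≤ C / (N : ℝ) ^ 1 := by
  obtain ⟨C, hC⟩ := exists_nat_gt (1 / (2 * η))
  have hC0 : (0 : ℝ) < C := lt_trans (by positivity) hC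
  have hC1 : 1 ≤ C := by exact_mod_cast hC0
  refine ⟨C, hC1, fun N P hN hP h => ⟨1, le_rfl, hC1, ?_⟩⟩
  have hN0 : (0 : ℝ) < N := by exact_mod_cast hN
  have e1 : ∀ n : ℕ, ex (P.eval (n : ℝ)) = ex (P.coeff 0) * ex (P.coeff 1 * n) := by
    intro n
    rw [← ex_add, eval_eq_sum_range' (n := 2) (by omega)]
    congr 1
    simp [Finset.sum_range_succ]
  simp only [e1] at h
  rw [← Finset.mul_sum, norm_mul, norm_ex, one_mul] at h
  have h1 := geom (P.coeff 1) N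
  have h2 : η * N * (4 * nd (P.coeff 1)) ≤ 2 :=
    (mul_le_mul_of_nonneg_right h (by have := nd_nonneg (P.coeff 1); linarith)).trans h1
  rw [Nat.cast_one, one_mul, pow_one, le_div_iff₀ hN0]
  rw [div_lt_iff₀ (by positivity)] at hC
  have h3 : 0 ≤ nd (P.coeff 1) * N := mul_nonneg (nd_nonneg _) hN0.le
  by_contra hcon
  push Not at hcon
  nlinarith [mul_lt_mul_of_pos_right hcon hη]

/-- the inductive step -/
lemma step (hrec : S_REC) {D : ℕ} (hD : 1 ≤ D)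
    (ih : ∀ η : ℝ, 0 < η → ∃ C : ℕ, 1 ≤ C ∧
      ∀ (N : ℕ) (P : ℝ[X]), 1 ≤ N → P.natDegree ≤ D → η * N ≤ ‖∑ n ∈ Ioc 0 N, ex (P.eval (n : ℝ))‖ →
      ∃ q : ℕ, 1 ≤ q ∧ q ≤ C ∧ nd (q * P.coeff D) ≤ C / (N : ℝ) ^ D)
    (η : ℝ) (hη : 0 < η) : ∃ C : ℕ, 1 ≤ C ∧
      ∀ (N : ℕ) (P : ℝ[X]), 1 ≤ N → P.natDegree ≤ D + 1 →
      η * N ≤ ‖∑ n ∈ Ioc 0 N, ex (P.eval (n : ℝ))‖ →
      ∃ q : ℕ, 1 ≤ q ∧ q ≤ C ∧ nd (q * P.coeff (D + 1)) ≤ C / (N : ℝ) ^ (D + 1) := by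
  classical
  obtain ⟨C1, hC1, h1⟩ := ih (η ^ 2 / 8) (by positivity)
  have hC1' : (0 : ℝ) < C1 := by exact_mod_cast hC1
  obtain ⟨C2, κ₀, hC2, hκ₀, h2⟩ := hrec (η ^ 2 / (8 * C1)) (by positivity)
  set B : ℝ := C1 * (8 / η ^ 2) ^ D with hB
  have hB0 : 0 < B := by positivity
  obtain ⟨N0, hN0⟩ := exists_nat_gt (max (2 / η ^ 2) (max (C2 : ℝ) (B / κ₀)))
  obtain ⟨C3, hC3⟩ := exists_nat_gt (max ((C2 : ℝ) * C1 * (D + 1)) (max (C2 * B) ((N0 : ℝ) ^ (D + 1))))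
  have hN0a : 2 / η ^ 2 < N0 := lt_of_le_of_lt (le_max_left _ _) hN0
  have hN0b : (C2 : ℝ) < N0 := lt_of_le_of_lt ((le_max_left _ _).trans (le_max_right _ _)) hN0
  have hN0c : B / κ₀ < N0 := lt_of_le_of_lt ((le_max_right _ _).trans (le_max_right _ _)) hN0
  have hC3a : (C2 : ℝ) * C1 * (D + 1) < C3 := lt_of_le_of_lt (le_max_left _ _) hC3
  have hC3b : C2 * B < C3 := lt_of_le_of_lt ((le_max_left _ _).trans (le_max_right _ _)) hC3
  have hC3c : (N0 : ℝ) ^ (D + 1) < C3 :=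
    lt_of_le_of_lt ((le_max_right _ _).trans (le_max_right _ _)) hC3
  have hC30 : (0 : ℝ) < C3 := lt_of_le_of_lt (by positivity) hC3c
  have hC31 : 1 ≤ C3 := by exact_mod_cast hC30
  refine ⟨C3, hC31, fun N P hN hP hS => ?_⟩
  have hNpos : (0 : ℝ) < N := by exact_mod_cast hN
  by_cases hNN : N ≤ N0
  · refine ⟨1, le_rfl, hC31, ?_⟩
    rw [le_div_iff₀ (by positivity)]
    have h3 := nd_le ((1 : ℕ) * P.coeff (D + 1))
    have h4 : (N : ℝ) ^ (D + 1) ≤ (N0 : ℝ) ^ (D + 1) :=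
      pow_le_pow_left₀ hNpos.le (by exact_mod_cast hNN) _
    have h5 := nd_nonneg ((1 : ℕ) * P.coeff (D + 1))
    have h6 : (0 : ℝ) < (N : ℝ) ^ (D + 1) := by positivity
    have h7 := mul_le_mul_of_nonneg_right (h3.trans (by norm_num : (1 / 2 : ℝ) ≤ 1)) h6.le
    linarith
  push Not at hNN
  have hNN' : (N0 : ℝ) < N := by exact_mod_cast hNN
  set T : ℕ → ℝ := fun h =>
    ‖∑ n ∈ Ioc 0 (N - h), ex (P.eval ((n + h : ℕ) : ℝ)) * (starRingEnd ℂ) (ex (P.eval (n : ℝ)))‖ with hT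
  have hdiff := differencing N (fun n => ex (P.eval (n : ℝ))) (fun n => norm_ex _)
  change ‖∑ n ∈ Ioc 0 N, ex (P.eval (n : ℝ))‖ ^ 2 ≤ N + 2 * ∑ h ∈ Ioc 0 (N - 1), T h at hdiff
  have hT1 : ∀ h, T h ≤ ((N - h : ℕ) : ℝ) := by
    intro h
    refine (norm_sum_le _ _).trans ?_
    have : ∀ n ∈ Ioc 0 (N - h), ‖ex (P.eval ((n + h : ℕ) : ℝ)) *
        (starRingEnd ℂ) (ex (P.eval (n : ℝ)))‖ = 1 := fun n _ => by
      rw [norm_mul, RCLike.norm_conj, norm_ex, norm_ex, mul_one]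
    rw [Finset.sum_congr rfl this]
    simp
  have hTN : ∀ h, T h ≤ N := fun h => (hT1 h).trans (by exact_mod_cast Nat.sub_le N h)
  set G := (Ioc 0 (N - 1)).filter (fun h => η ^ 2 / 8 * N ≤ T h) with hG
  have hsum : ∑ h ∈ Ioc 0 (N - 1), T h ≤ G.card * N + N * (η ^ 2 / 8 * N) := by
    have h3 : ∀ h ∈ Ioc 0 (N - 1), T h ≤
        (if η ^ 2 / 8 * N ≤ T h then (N : ℝ) else 0) + η ^ 2 / 8 * N := by
      intro h _
      split_ifs with h4
      · have := hTN h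
        have h5 : 0 ≤ η ^ 2 / 8 * N := by positivity
        linarith
      · push Not at h4
        linarith
    refine (Finset.sum_le_sum h3).trans ?_
    rw [Finset.sum_add_distrib, ← Finset.sum_filter, Finset.sum_const, Finset.sum_const,
      nsmul_eq_mul, nsmul_eq_mul, Nat.card_Ioc]
    have h4 : ((N - 1 - 0 : ℕ) : ℝ) ≤ N := by
      have : N - 1 - 0 ≤ N := by omega
      exact_mod_cast this
    have h5 : 0 ≤ η ^ 2 / 8 * (N : ℝ) := by positivity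
    have h6 := mul_le_mul_of_nonneg_right h4 h5
    linarith
  have hGcard : η ^ 2 / 8 * N ≤ G.card := by
    have h3 : (η * N) ^ 2 ≤ ‖∑ n ∈ Ioc 0 N, ex (P.eval (n : ℝ))‖ ^ 2 :=
      pow_le_pow_left₀ (by positivity) hS 2
    have h4 : (η * N) ^ 2 ≤ N + 2 * (G.card * N + N * (η ^ 2 / 8 * N)) := by linarith
    have h5 : 2 < η ^ 2 * N := by
      have := hN0a.trans hNN'
      rw [div_lt_iff₀ (by positivity)] at this
      linarith
    have h6 : 0 ≤ N * (G.card - η ^ 2 / 8 * N : ℝ) := by nlinarith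
    have h7 := (mul_nonneg_iff_of_pos_left hNpos).1 h6
    linarith
  -- the inverse theorem in degree `D`
  have hq : ∀ h ∈ G, ∃ q : ℕ, 1 ≤ q ∧ q ≤ C1 ∧
      nd (q * ((D + 1) * h * P.coeff (D + 1))) ≤ B / (N : ℝ) ^ D := by
    intro h hh
    rw [hG, mem_filter, mem_Ioc] at hh
    obtain ⟨⟨hh0, hh1⟩, hh2⟩ := hh
    obtain ⟨hd1, hd2⟩ := diff_poly P hP (h : ℝ)
    have hlow : η ^ 2 / 8 * N ≤ ((N - h : ℕ) : ℝ) := hh2.trans (hT1 h)
    have hNh : 1 ≤ N - h := by omega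
    have hTe : T h = ‖∑ n ∈ Ioc 0 (N - h), ex ((taylor (h : ℝ) P - P).eval (n : ℝ))‖ := by
      rw [hT]
      change ‖∑ n ∈ Ioc 0 (N - h), _‖ = _
      congr 1
      refine Finset.sum_congr rfl fun n _ => ?_
      rw [conj_ex, ← ex_add, eval_sub, taylor_eval]
      congr 1
      push_cast
      ring
    obtain ⟨q, hq1, hq2, hq3⟩ := h1 (N - h) (taylor (h : ℝ) P - P) hNh hd1 (by
      rw [← hTe]
      refine le_trans ?_ hh2
      have : ((N - h : ℕ) : ℝ) ≤ N := by exact_mod_cast Nat.sub_le N h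
      exact mul_le_mul_of_nonneg_left this (by positivity))
    refine ⟨q, hq1, hq2, ?_⟩
    rw [hd2] at hq3
    refine hq3.trans ?_
    have h3 : (η ^ 2 / 8 * N) ^ D ≤ ((N - h : ℕ) : ℝ) ^ D := pow_le_pow_left₀ (by positivity) hlow D
    have h4 : (C1 : ℝ) / ((N - h : ℕ) : ℝ) ^ D ≤ C1 / (η ^ 2 / 8 * N) ^ D :=
      div_le_div_of_nonneg_left hC1'.le (by positivity) h3
    refine h4.trans (le_of_eq ?_)
    rw [hB, mul_pow, div_pow, div_pow]
    field_simp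
  choose! qf hqf using hq
  have hGne : 0 < C1 := hC1
  -- pigeonhole
  obtain ⟨q0, hq0, hq0c⟩ : ∃ q0 ∈ Icc 1 C1, (G.card : ℝ) / C1 ≤ ((G.filter fun h => qf h = q0).card : ℝ) := by
    refine Finset.exists_le_of_sum_le (f := fun _ => (G.card : ℝ) / C1)
      (g := fun q => ((G.filter fun h => qf h = q).card : ℝ)) ⟨1, by simp [hC1]⟩ ?_
    rw [Finset.sum_const, Nat.card_Icc, nsmul_eq_mul, Nat.add_sub_cancel]
    have h3 : G.card = ∑ q ∈ Icc 1 C1, (G.filter fun h => qf h = q).card :=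
      Finset.card_eq_sum_card_fiberwise (fun h hh => by
        rw [Finset.coe_Icc, Set.mem_Icc]
        exact ⟨(hqf h hh).1, (hqf h hh).2.1⟩)
    have h4 : (G.card : ℝ) = ∑ q ∈ Icc 1 C1, ((G.filter fun h => qf h = q).card : ℝ) := by
      exact_mod_cast h3
    rw [← h4]
    exact le_of_eq (by field_simp)
  rw [mem_Icc] at hq0
  set θ : ℝ := q0 * ((D + 1) * P.coeff (D + 1)) with hθ
  set κ : ℝ := B / (N : ℝ) ^ D with hκ
  have hκ1 : κ ≤ κ₀ := by
    have h3 : (N : ℝ) ≤ (N : ℝ) ^ D := by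
      have : (1 : ℝ) ≤ N := by exact_mod_cast hN
      exact le_self_pow₀ this (by omega)
    have h4 : κ ≤ B / N := div_le_div_of_nonneg_left hB0.le hNpos h3
    refine h4.trans ?_
    rw [div_le_iff₀ hNpos]
    have h5 := hN0c.trans hNN'
    rw [div_lt_iff₀ hκ₀] at h5
    linarith
  obtain ⟨q, hq1, hq2, hq3⟩ := h2 N θ κ (by
      have := hN0b.trans hNN'
      exact_mod_cast this.le) (by positivity) hκ1 (by
    have h3 : (G.filter fun h => qf h = q0) ⊆ (Icc 1 N).filter (fun h : ℕ => nd (h * θ) ≤ κ) := by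
      intro h hh
      rw [mem_filter] at hh ⊢
      have h4 := hqf h hh.1
      have h5 := hh.1
      rw [hG, mem_filter, mem_Ioc] at h5
      refine ⟨by rw [mem_Icc]; omega, ?_⟩
      have h6 := h4.2.2
      rw [hh.2] at h6
      have e1 : (h : ℝ) * θ = q0 * ((D + 1) * h * P.coeff (D + 1)) := by
        rw [hθ]
        ring
      rw [e1]
      exact h6
    have h4 : ((G.filter fun h => qf h = q0).card : ℝ) ≤
        (((Icc 1 N).filter (fun h : ℕ => nd (h * θ) ≤ κ)).card : ℝ) := by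
      exact_mod_cast Finset.card_le_card h3
    refine le_trans ?_ (hq0c.trans h4)
    rw [le_div_iff₀ hC1']
    refine le_trans (le_of_eq ?_) hGcard
    field_simp)
  refine ⟨q * q0 * (D + 1), ?_, ?_, ?_⟩
  · exact Nat.one_le_iff_ne_zero.2 (by
      have h3 : 0 < q * q0 * (D + 1) := Nat.mul_pos (Nat.mul_pos hq1 hq0.1) (Nat.succ_pos D)
      omega)
  · have h3 : q * q0 * (D + 1) ≤ C2 * C1 * (D + 1) :=
      Nat.mul_le_mul (Nat.mul_le_mul hq2 hq0.2) le_rfl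
    have h4 : ((C2 * C1 * (D + 1) : ℕ) : ℝ) ≤ C3 := by
      push_cast
      exact hC3a.le
    exact h3.trans (by exact_mod_cast h4)
  · have e1 : (((q * q0 * (D + 1) : ℕ) : ℝ)) * P.coeff (D + 1) = q * θ := by
      rw [hθ]
      push_cast
      ring
    rw [e1]
    refine hq3.trans ?_
    have e2 : (C2 : ℝ) * κ / N = C2 * B / (N : ℝ) ^ (D + 1) := by
      rw [hκ, pow_succ]
      field_simp
    rw [e2]
    exact div_le_div_of_nonneg_right hC3b.le (by positivity)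

/-- **WEYL** -/
theorem t_WEYL : S_REC → S_WEYL := by
  intro hrec D hD
  induction D, hD using Nat.le_induction with
  | base => exact fun η hη => base_case η hη
  | succ D hD ih => exact fun η hη => step hrec hD ih η hη

end Pool.Agent.H88.BF
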